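import Pool.Agent.H93.EN.Targets4

/-!
# EN: the system is good if the corners are bright (row GD)
-/

set_option autoImplicit false

namespace Pool.Agent.H48.EN

open MeasureTheory Set Metric Filter Topology Pool.Agent.H93.EN
open Pool.Agent.H93.BL hiding T_B1 T_B2 T_B3 T_SB T_SC

theorem gd_cold (h2 : T_FEC) {ι : Type} (P : Polygon ι) (E : Set ι) (U : Set ℂ) (D : Dat ι)
    (hP : D.P = P) (hF : D.F = FE P E U) (k : ι) (hk : k ∈ E) : D.Cold k := by
  intro x R w hR hc hw h1 h3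
  subst hP
  rw [hF]
  exact h2 ι D.P E U k hk x R w hR hc hw h1 h3

theorem gd (h1 : T_OPV) (h2 : T_FEC) : T_GD := by
  intro ι _ P E U hU hUP hcor D hP hF r i j α hC
  obtain ⟨hq, _, hr, hα, hα2, hu, _, _, hsec⟩ := hC
  have hCA : CornerAt P i j α := by
    subst hP
    refine ⟨hq, hα, hα2, hu, r, hr, fun s hs θ hθ => (hsec s hs θ hθ).1⟩
  rcases hcor i j α hCA with h | h | h
  · exact Or.inl (gd_cold h2 P E U D hP hF i h)
  · exact Or.inr (Or.inl (gd_cold h2 P E U D hP hF j h))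
  · right; right
    subst hP
    unfold Dat.BrightF
    filter_upwards [h] with θ hθ
    obtain ⟨l, hl, φ, hφ, hrefl, hRU⟩ := hθ
    obtain ⟨ε, hε, hε1, _⟩ := h1 ι D.P E U hU hUP i j α φ hCA hφ hRU
    refine ⟨l, hl, φ, hφ, hrefl, ε, hε, ?_⟩
    intro s hs ψ hψ w hw hwd
    have h3 := hε1 s hs ψ hψ w hw hwd
    rw [hF]
    unfold FE
    rw [if_neg]
    rintro ⟨_, _, h4, _⟩
    exact h4 h3

end Pool.Agent.H48.EN
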